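import Pool.Agent.Q31.GLV.Stm

/-! Project GLV (helper31), job SUM -/

set_option autoImplicit false

namespace Pool.Agent.Q224.GLV

open Pool.Agent.Q31.GLV Module Cardinal

theorem t_SUM : S_SUM := by
  intro F V _ _ _ hV e
  have hr : Module.rank F V = Module.rank F (V × V) := by
    rw [rank_prod', Cardinal.add_eq_self hV]
  obtain ⟨φ⟩ := nonempty_linearEquiv_of_rank_eq hr
  let E : V × V →ₗ[F] V × V := (φ : V →ₗ[F] V × V) ∘ₗ e ∘ₗ (φ.symm : V × V →ₗ[F] V)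
  let a : V →ₗ[F] V := LinearMap.fst F V V ∘ₗ E ∘ₗ LinearMap.inl F V V
  let b : V →ₗ[F] V := LinearMap.fst F V V ∘ₗ E ∘ₗ LinearMap.inr F V V
  let c : V →ₗ[F] V := LinearMap.snd F V V ∘ₗ E ∘ₗ LinearMap.inl F V V
  let d : V →ₗ[F] V := LinearMap.snd F V V ∘ₗ E ∘ₗ LinearMap.inr F V V
  have hE : ∀ x y : V, E (x, y) = (a x + b y, c x + d y) := by
    intro x y
    have h1 : ((x, y) : V × V) = (x, 0) + (0, y) := by simp
    have h2 : E (x, y) = E (x, 0) + E (0, y) := by rw [h1, map_add]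
    rw [h2]
    rfl
  let x1 : V × V →ₗ[F] V := LinearMap.fst F V V
  let x2 : V × V →ₗ[F] V := LinearMap.snd F V V
  let A : (V × V) ≃ₗ[F] (V × V) := LinearEquiv.ofLinear ((a ∘ₗ x1 + x2).prod x1)
    (x2.prod (x1 - a ∘ₗ x2)) (by ext v <;> simp [x1, x2]) (by ext v <;> simp [x1, x2])
  let B : (V × V) ≃ₗ[F] (V × V) := LinearEquiv.ofLinear ((-x2).prod (-x1 + d ∘ₗ x2))
    ((-(d ∘ₗ x1) - x2).prod (-x1)) (by ext v <;> simp [x1, x2]) (by ext v <;> simp [x1, x2])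
  let C : (V × V) ≃ₗ[F] (V × V) := LinearEquiv.ofLinear ((x1 + b ∘ₗ x2).prod x2)
    ((x1 - b ∘ₗ x2).prod x2) (by ext v <;> simp [x1, x2]) (by ext v <;> simp [x1, x2])
  let D : (V × V) ≃ₗ[F] (V × V) := LinearEquiv.ofLinear ((-x1).prod (c ∘ₗ x1 - x2))
    ((-x1).prod (-(c ∘ₗ x1) - x2)) (by ext v <;> simp [x1, x2]) (by ext v <;> simp [x1, x2])
  have hsum : ∀ z : V × V, E z = A z + B z + C z + D z := by
    rintro ⟨x, y⟩
    rw [hE]
    show (a x + b y, c x + d y) = (a x + y, x) + (-y, -x + d y) + (x + b y, y) + (-x, c x - y)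
    ext
    · show a x + b y = a x + y + -y + (x + b y) + -x
      abel
    · show c x + d y = x + (-x + d y) + y + (c x - y)
      abel
  refine ⟨φ.trans (A.trans φ.symm), φ.trans (B.trans φ.symm), φ.trans (C.trans φ.symm),
    φ.trans (D.trans φ.symm), fun v => ?_⟩
  have h1 := hsum (φ v)
  have h2 : E (φ v) = φ (e v) := by
    show φ (e (φ.symm (φ v))) = φ (e v)
    rw [LinearEquiv.symm_apply_apply]
  rw [h2] at h1
  have h3 := congrArg φ.symm h1
  rw [LinearEquiv.symm_apply_apply, map_add, map_add, map_add] at h3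
  exact h3

end Pool.Agent.Q224.GLV
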