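import Pool.Agent.Q31.GLV.Stm

/-! Project GLV (helper31), job T5A -/

set_option autoImplicit false

namespace Pool.Agent.Q224.GLV

open Pool.Agent.Q31.GLV Module Cardinal

theorem t_T5A : S_T5A := by
  intro F V _ _ _ hV hμ H hH U hU hN
  obtain ⟨μ, hμ0, hμ1⟩ := hμ
  have hμ2 : μ - 1 ≠ 0 := sub_ne_zero.2 hμ1
  obtain ⟨k, hk, hk1, hk2⟩ := hN (LinearEquiv.smulOfNeZero F U μ hμ0)
  have hk1' : ∀ u : U, k (u : V) = μ • (u : V) := fun u => hk1 u
  let γ : V →ₗ[F] U := LinearMap.codRestrict U ((k : V →ₗ[F] V) - LinearMap.id) hk2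
  have hγ : ∀ v, (γ v : V) = k v - v := fun v => rfl
  have hγU : ∀ u : U, γ (u : V) = (μ - 1) • u := by
    intro u
    apply Subtype.ext
    rw [hγ, hk1']
    show μ • (u : V) - u = (μ - 1) • (u : V)
    rw [sub_smul, one_smul]
  have hC : IsCompl U (LinearMap.ker γ) := by
    constructor
    · rw [Submodule.disjoint_def]
      intro x hx hx2
      have h1 := hγU ⟨x, hx⟩
      rw [LinearMap.mem_ker] at hx2
      have h2 : (μ - 1) • (⟨x, hx⟩ : U) = 0 := by rw [← h1]; exact hx2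
      rcases smul_eq_zero.1 h2 with h3 | h3
      · exact absurd h3 hμ2
      · exact congrArg Subtype.val h3
    · rw [codisjoint_iff, eq_top_iff]
      intro v _
      rw [Submodule.mem_sup]
      refine ⟨((μ - 1)⁻¹ • γ v : U), ((μ - 1)⁻¹ • γ v : U).2, v - ((μ - 1)⁻¹ • γ v : U), ?_, ?_⟩
      · rw [LinearMap.mem_ker, map_sub, hγU, smul_smul, mul_inv_cancel₀ hμ2, one_smul, sub_self]
      · abel
  refine ⟨LinearMap.ker γ, hC, fun C₁ hC₁ hr₁ hr₂ => ?_⟩
  -- the projection onto `ker γ` along `U`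
  let q : V →ₗ[F] V := (LinearMap.ker γ).subtype ∘ₗ (LinearMap.ker γ).projectionOnto U hC.symm
  have hqU : ∀ u : U, q (u : V) = 0 := by
    intro u
    show (((LinearMap.ker γ).projectionOnto U hC.symm (u : V) : LinearMap.ker γ) : V) = 0
    rw [Submodule.projectionOnto_apply_right]
    rfl
  have hqC : ∀ c ∈ LinearMap.ker γ, q c = c := by
    intro c hc
    show (((LinearMap.ker γ).projectionOnto U hC.symm c : LinearMap.ker γ) : V) = c
    have := Submodule.projectionOnto_apply_left hC.symm (⟨c, hc⟩ : LinearMap.ker γ)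
    exact congrArg Subtype.val this
  obtain ⟨p⟩ := nonempty_linearEquiv_of_rank_eq (hr₁.trans hU.1.symm)
  obtain ⟨P₀, hP₀⟩ := LinearMap.exists_extend (p : C₁ →ₗ[F] U)
  have hP₀' : ∀ c : C₁, P₀ (c : V) = p c := fun c => LinearMap.congr_fun hP₀ c
  let P : V →ₗ[F] U := P₀ ∘ₗ q
  have hPU : ∀ u : U, P (u : V) = 0 := by
    intro u
    show P₀ (q (u : V)) = 0
    rw [hqU, map_zero]
  have hPC : ∀ c : C₁, P (c : V) = p c := by
    intro c
    show P₀ (q (c : V)) = p c
    rw [hqC _ (hC₁ c.2), hP₀']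
  -- the space `W`
  let W : Submodule F V := U ⊔ C₁
  have hUW : U ≤ W := le_sup_left
  have hW : Large W := by
    refine ⟨le_antisymm (Submodule.rank_le W) ?_, hr₂⟩
    rw [← hU.1]
    exact Submodule.rank_mono hUW
  let PW : W →ₗ[F] W := (Submodule.inclusion hUW) ∘ₗ P ∘ₗ W.subtype
  have hPW : ∀ w : W, (PW w : V) = P (w : V) := fun w => rfl
  have hPW2 : ∀ w : W, PW (PW w) = 0 := by
    intro w
    apply Subtype.ext
    rw [hPW, hPW, hPU]
    rfl
  let g : W ≃ₗ[F] W := LinearEquiv.ofLinear (LinearMap.id + PW) (LinearMap.id - PW)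
    (by
      ext1 w
      show (w - PW w) + PW (w - PW w) = w
      rw [map_sub, hPW2, sub_zero, sub_add_cancel])
    (by
      ext1 w
      show (w + PW w) - PW (w + PW w) = w
      rw [map_add, hPW2, add_zero, add_sub_cancel_right])
  obtain ⟨h, hh, hhg⟩ := hH W hW g
  have hhW : ∀ w ∈ W, h w = w + (P w : V) := fun w hw => hhg ⟨w, hw⟩
  have hhU : ∀ u : U, h (u : V) = u := by
    intro u
    rw [hhW _ (hUW u.2), hPU]
    show (u : V) + ((0 : U) : V) = u
    rw [Submodule.coe_zero, add_zero]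
  have hhU' : ∀ u : U, h⁻¹ (u : V) = u := by
    intro u
    have h1 : h⁻¹ (h (u : V)) = u := by
      show (h⁻¹ * h) (u : V) = u
      rw [inv_mul_cancel]
      rfl
    rw [hhU] at h1
    exact h1
  let τ : V →ₗ[F] U := γ ∘ₗ ((h : V →ₗ[F] V) - LinearMap.id)
  have hτ : ∀ v, τ v = γ (h v - v) := fun v => rfl
  refine ⟨τ, ⟨fun u => ?_, h⁻¹ * k * h * k⁻¹,
    H.mul_mem (H.mul_mem (H.mul_mem (H.inv_mem hh) hk) hh) (H.inv_mem hk), fun v => ?_⟩, ?_⟩
  · rw [hτ, hhU, sub_self, map_zero]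
  · set x : V := k⁻¹ v with hx
    have hkx : k x = v := by
      show (k * k⁻¹) v = v
      rw [mul_inv_cancel]
      rfl
    have h1 : v = x + (γ x : V) := by
      rw [hγ, hkx]
      abel
    have h2 : k (h x) = h x + (γ (h x) : V) := by
      rw [hγ]
      abel
    have h3 : h⁻¹ (h x) = x := by
      show (h⁻¹ * h) x = x
      rw [inv_mul_cancel]
      rfl
    have h4 : τ v = γ (h x) - γ x := by
      rw [hτ, h1, map_add, hhU, add_sub_add_right_eq_sub, map_sub]
    show h⁻¹ (k (h x)) = v + (τ v : V)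
    rw [h2, map_add, h3, hhU', h4, Submodule.coe_sub]
    rw [h1]
    abel_nf
  · intro v hv hv0
    have h1 : h v - v = (p ⟨v, hv⟩ : U) := by
      rw [hhW v (Submodule.mem_sup_right hv), hPC ⟨v, hv⟩]
      abel
    rw [hτ, h1, hγU] at hv0
    rcases smul_eq_zero.1 hv0 with h3 | h3
    · exact absurd h3 hμ2
    · have h4 : (⟨v, hv⟩ : C₁) = 0 := by
        apply p.injective
        rw [h3, map_zero]
      exact congrArg Subtype.val h4

end Pool.Agent.Q224.GLV
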