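import Pool.Agent.Q31.GLV.Stm

/-! Project GLV (helper31), job TA -/

set_option autoImplicit false

namespace Pool.Agent.Q224.GLV

open Pool.Agent.Q31.GLV Module Cardinal

section
variable {F V : Type} [Field F] [AddCommGroup V] [Module F V]

lemma InT_add {H : Subgroup (V ≃ₗ[F] V)} {U : Submodule F V} {τ τ' : V →ₗ[F] U}
    (h : InT H U τ) (h' : InT H U τ') : InT H U (τ + τ') := by
  obtain ⟨h0, t, ht, h1⟩ := h
  obtain ⟨h0', t', ht', h1'⟩ := h'
  refine ⟨fun u => ?_, t * t', H.mul_mem ht ht', fun v => ?_⟩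
  · rw [LinearMap.add_apply, h0, h0', add_zero]
  · show t (t' v) = v + ((τ + τ') v : U)
    rw [h1, h1', map_add, h0, add_zero, LinearMap.add_apply]
    push_cast
    abel

lemma InT_unit {H : Subgroup (V ≃ₗ[F] V)} {U : Submodule F V} (hN : NT H U) {τ : V →ₗ[F] U}
    (h : InT H U τ) (y : U ≃ₗ[F] U) : InT H U ((y : U →ₗ[F] U) ∘ₗ τ) := by
  obtain ⟨h0, t, ht, h1⟩ := h
  obtain ⟨k, hk, hk1, hk2⟩ := hN y
  refine ⟨fun u => ?_, k * t * k⁻¹, H.mul_mem (H.mul_mem hk ht) (H.inv_mem hk), fun v => ?_⟩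
  · rw [LinearMap.comp_apply, h0, map_zero]
  · set w : V := k⁻¹ v with hw
    have hkw : k w = v := by
      show (k * k⁻¹) v = v
      rw [mul_inv_cancel]
      rfl
    have h2 : τ v = τ w := by
      have h3 := hk2 w
      rw [hkw] at h3
      have h4 := h0 ⟨v - w, h3⟩
      have h5 : τ (v - w) = 0 := h4
      rw [map_sub, sub_eq_zero] at h5
      exact h5
    show k (t w) = v + (((y : U →ₗ[F] U) ∘ₗ τ) v : U)
    rw [h1, map_add, hkw, hk1, LinearMap.comp_apply, h2]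
    rfl

end

theorem t_TA : S_SUM → S_TA := by
  intro hS F V _ _ _ hV H U hU hN
  refine ⟨fun τ τ' h h' => InT_add h h', fun τ e h => ?_⟩
  obtain ⟨a, b, c, d, habcd⟩ := hS F U (hU.1.symm ▸ hV) e
  have h1 : e ∘ₗ τ = (a : U →ₗ[F] U) ∘ₗ τ + (b : U →ₗ[F] U) ∘ₗ τ + (c : U →ₗ[F] U) ∘ₗ τ +
      (d : U →ₗ[F] U) ∘ₗ τ := by
    ext1 v
    exact habcd (τ v)
  rw [h1]
  exact InT_add (InT_add (InT_add (InT_unit hN h a) (InT_unit hN h b)) (InT_unit hN h c))
    (InT_unit hN h d)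

end Pool.Agent.Q224.GLV
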